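import Pool.Agent.TH957.Zag.Th

/-!
# Zagier's conjecture on `ζ_F(n)` and polylogarithms: reduction along automorphisms
-/

open NumberField

namespace Pool.Agent.Results.MP_f01982_nt.AutomorphismReduction

open Pool.Agent.TH957.Zag

/-- if `z` is in the two-sided ideal of `ℚ[Aut F]` generated by the norm elements of the subgroups in `S`, and `z`
fixes the embeddings of `F` modulo `conj ∘ τ = (-1)^(n-1) τ`, then the conjecture for the fixed fields of the
subgroups in `S` implies the conjecture for `F` -/
def GeneralReduction (n : ℕ) : Prop :=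
  ∀ (F : NF) (S : Set (Subgroup F.Aut)) (z : MonoidAlgebra ℚ F.Aut),
    z ∈ normIdeal S → FixesEmb n F z → (∀ C ∈ S, Zagier n (F.fix C)) → Zagier n F

/-- for a non-cyclic group `H` of automorphisms all of whose nontrivial elements have prime order (for example
`H` non-cyclic of order `p q`), the conjecture for the fixed fields of the subgroups of `H` of prime order implies
the conjecture for `F` -/
def PrimeOrderReduction (n : ℕ) : Prop :=
  ∀ (F : NF) (H : Subgroup F.Aut), ¬ IsCyclic H → PrimeElements H →
    (∀ C : Subgroup F.Aut, C ≤ H → (Nat.card C).Prime → Zagier n (F.fix C)) → Zagier n F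

/-- the properties of the remaining fields -/
def MinimalProperties (n : ℕ) : Prop :=
  ∀ F : NF, Minimal n F →
    CyclicPQ F.Aut ∧ (Odd n → ¬ IsCM F) ∧ (Even n → ∃ w : InfinitePlace F.carrier, w.IsComplex)

/-- **Reduction of Zagier's conjecture along automorphisms** in a weight `n ≥ 2`. -/
theorem result (n : ℕ) (hn : 2 ≤ n) (T : Theory n) :
    (∀ F : NF, Zagier n F ↔ T.P F = ⊤) ∧ GeneralReduction n ∧ PrimeOrderReduction n ∧
    ((∀ F : NF, Zagier n F) ↔ ∀ F : NF, Minimal n F → Zagier n F) ∧ MinimalProperties n :=
  ⟨T.zagier_iff, fun F S z hz hz' hZ => T.reduce_general F S z hz hz' hZ, fun F H hH hp hZ => T.reduce F H hH hp hZ,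
    T.main, fun _ h => ⟨h.isCyclic, fun ho => h.not_CM ho, fun he => h.complex he (by omega)⟩⟩

end Pool.Agent.Results.MP_f01982_nt.AutomorphismReduction
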