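import Pool.Agent.TH613.ZK.Gal

/-!
# Zagier's conjecture: reduction to number fields without norm relations

`NF` is the type of algebraic extensions of `ℚ` in an algebraic closure of `ℚ`, `Fin K` says that `K`
is a number field, and `fix L C` is the fixed field in `L` of a group `C` of automorphisms of `L`.

Fix `n`. `T : KTheory` records rational vector spaces `V L`, in practice `K_{2n-1}(L) ⊗ ℚ`, with
automorphisms, restriction and transfer. `IsKTheory n T` are the formal properties:
* the group `Aut L` acts on `V L`,
* restriction from `L^C` to `L` after transfer from `L` to `L^C` is the sum of the elements of `C`,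
* an automorphism of `L` which is complex conjugation in each embedding of `L` into `ℂ` acts as
  `(-1) ^ (n - 1)` (Borel).
The subspaces `W L` of `V L` are stable under automorphisms and restriction (`IsPolylog`). In
practice `W L` is the image of the map `l_n : ker δ_n ⊗ ℚ → K_{2n-1}(L) ⊗ ℚ` of
Beilinson-Deligne and de Jeu; by Borel's theorem Zagier's conjecture for `L` and `n` says `W L = V L`.

`Remaining n K`: `K` is a number field, `1` is not a rational combination of elements `a N_C b` of
the group ring of `Aut K`, with nontrivial subgroups `C` and their norm elements `N_C`; `K` is not
totally real if `n` is even, and not a CM field if `n` is odd.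

Theorem. `W L = V L` holds for all number fields `L` if and only if it holds for the remaining
fields. If `K` is a remaining field, each group of automorphisms of `K` of order `q r`, with `q` and
`r` primes, is cyclic, `K` has at most one automorphism of order two, and if `K` is Galois over `ℚ`
it is totally real if `n` is odd, and a CM field if `n` is even.
-/

set_option autoImplicit false

namespace Pool.Agent.Results.MP_f01982_nt.NoNormRelation

open Pool.Agent.TH613 Pool.Agent.TH613.MU Pool.Agent.TH613.ZK

/-- The surjectivity of `l_n` for all number fields follows from its case for the remaining fields;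
the automorphism groups of these fields, and the Galois fields among them. -/
theorem result (n : ℕ) (T : KTheory) (hT : IsKTheory n T) (W : ∀ L : NF, Submodule ℚ (T.V L))
    (hW : IsPolylog T W) :
    ((∀ K : NF, MU.Fin K → W K = ⊤) ↔ ∀ K : NF, Remaining n K → W K = ⊤) ∧
    ∀ K : NF, Remaining n K →
      AutCyclic K ∧
      (∀ z w : Aut K, z ≠ 1 → w ≠ 1 → z * z = 1 → w * w = 1 → z = w) ∧
      (Normal ℚ K → (Odd n → TotReal K) ∧ (Even n → IsCM K)) :=
  ⟨reduction hT hW, fun _ hK => ⟨autCyclic hK,
    fun _ _ hz1 hw1 hz hw => involution_unique hK hz1 hw1 hz hw, fun hN => galois hK hN⟩⟩

end Pool.Agent.Results.MP_f01982_nt.NoNormRelation
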